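import Pool.Agent.Y166.CS.Stm

/-! # CS-ORD: comparison of orders of vanishing -/

set_option autoImplicit false

namespace Pool.Agent.Y675.CS

open Polynomial

theorem eval_of_dvd {a b : ℂ[X]} (h : X ∣ a - b) : a.eval 0 = b.eval 0 := by
  obtain ⟨q, hq⟩ := h
  have := congrArg (eval 0) hq
  rw [eval_sub, eval_mul, eval_X, zero_mul] at this
  exact sub_eq_zero.1 this

theorem done : Pool.Agent.Y166.CS.S_ORD := by
  intro f hf k l hk hl c hc A B Y Z hA hB hdvd hne
  -- the factorisation of `f`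
  obtain ⟨f1, hf1⟩ := dvd_iff_isRoot.2 (show IsRoot f c from hc)
  have hf1c : f1.eval c ≠ 0 := by
    intro h
    obtain ⟨f2, hf2⟩ := dvd_iff_isRoot.2 (show IsRoot f1 c from h)
    have h1 := hf (X - C c) ⟨f2, by rw [hf1, hf2]; ring⟩
    exact not_isUnit_X_sub_C c h1
  have hA0 : A.eval 0 = c := by
    rw [hA, eval_add, eval_C, eval_mul, eval_pow, eval_X, zero_pow (by omega), zero_mul, add_zero]
  have hcomp : f.comp A = X ^ l * (B * f1.comp A) := by
    rw [hf1, mul_comp, sub_comp, X_comp, C_comp]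
    have : A - C c = X ^ l * B := by rw [hA]; ring
    rw [this, mul_assoc]
  obtain ⟨u, hu⟩ : ∃ u : ℂ[X], u = B * f1.comp A * Z := ⟨_, rfl⟩
  have hmain : X ^ (l + 1) ∣ X ^ l * u - Y ^ k := by
    have : X ^ l * u - Y ^ k = f.comp A * Z - Y ^ k := by
      rw [hcomp, hu]
      ring
    rw [this]
    exact hdvd
  have hX1 : (X : ℂ[X]) ∣ X ^ l * u - Y ^ k := (dvd_pow_self _ (by omega)).trans hmain
  have hY0 : Y.eval 0 = 0 := by
    have h1 := eval_of_dvd hX1
    rw [eval_mul, eval_pow, eval_X, zero_pow (by omega), zero_mul, eval_pow] at h1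
    exact eq_zero_of_pow_eq_zero h1.symm
  have hZ0 : Z.eval 0 ≠ 0 := fun h => hne ⟨hY0, h⟩
  have hu0 : u.eval 0 ≠ 0 := by
    rw [hu, eval_mul, eval_mul, eval_comp, hA0]
    exact mul_ne_zero (mul_ne_zero hB hf1c) hZ0
  have hYne : Y ≠ 0 := by
    rintro rfl
    rw [zero_pow (by omega), sub_zero, pow_succ] at hmain
    have h1 : (X : ℂ[X]) ∣ u := (mul_dvd_mul_iff_left (pow_ne_zero l X_ne_zero)).1 hmain
    obtain ⟨q, hq⟩ := h1
    apply hu0
    rw [hq, eval_mul, eval_X, zero_mul]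
  obtain ⟨v, hv1, hv2⟩ := exists_eq_pow_rootMultiplicity_mul_and_not_dvd Y hYne 0
  set m := Y.rootMultiplicity 0 with hm
  rw [C_0, sub_zero] at hv1 hv2
  have hv0 : v.eval 0 ≠ 0 := by
    intro h
    apply hv2
    have := dvd_iff_isRoot.2 (show IsRoot v 0 from h)
    rwa [C_0, sub_zero] at this
  have hYk : Y ^ k = X ^ (m * k) * v ^ k := by
    rw [hv1, mul_pow, ← pow_mul]
  rw [hYk] at hmain
  rcases lt_trichotomy (m * k) l with h | h | h
  · exfalso
    have h1 : X ^ l * u - X ^ (m * k) * v ^ k = X ^ (m * k) * (X ^ (l - m * k) * u - v ^ k) := by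
      rw [mul_sub, ← mul_assoc, ← pow_add, Nat.add_sub_cancel' h.le]
    rw [h1] at hmain
    have h2 : (X : ℂ[X]) ^ (m * k) * X ∣ X ^ (m * k) * (X ^ (l - m * k) * u - v ^ k) := by
      rw [← pow_succ]
      exact (pow_dvd_pow _ (by omega)).trans hmain
    have h3 := eval_of_dvd ((mul_dvd_mul_iff_left (pow_ne_zero (m * k) X_ne_zero)).1 h2)
    rw [eval_mul, eval_pow, eval_X, zero_pow (by omega), zero_mul, eval_pow] at h3
    exact hv0 (eq_zero_of_pow_eq_zero h3.symm)
  · exact ⟨m, by rw [← h, mul_comm]⟩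
  · exfalso
    have h1 : X ^ l * u - X ^ (m * k) * v ^ k = X ^ l * (u - X ^ (m * k - l) * v ^ k) := by
      rw [mul_sub, ← mul_assoc, ← pow_add, Nat.add_sub_cancel' h.le]
    rw [h1, pow_succ] at hmain
    have h3 := eval_of_dvd ((mul_dvd_mul_iff_left (pow_ne_zero l X_ne_zero)).1 hmain)
    rw [eval_mul, eval_pow, eval_X, zero_pow (by omega), zero_mul] at h3
    exact hu0 h3

end Pool.Agent.Y675.CS
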